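import Pool.Agent.K1H2.UB.Stm

/-! The criterion: an upper bound for the probability that a site does not belong to the
aggregate (project UB, piece CRIT). -/

set_option autoImplicit false

open scoped ENNReal NNReal
open Finset Pool.Agent.K1H53.BI Pool.Agent.K1H2.UB

namespace Pool.Agent.K1H68.UB

theorem ind_le_one {α : Type} (P : α → Prop) (a : α) : ind P a ≤ 1 := by
  unfold ind
  split_ifs
  · exact le_refl _
  · exact zero_le_one

theorem Phi_le_one (ν : PMF ℕ) (G : Finset V → Prop) (s : St) : Phi ν G s ≤ 1 := by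
  unfold Phi
  refine iSup_le fun n => ?_
  calc Ex (run (step ν) s n) (ind fun s => Fin' s ∧ G s.A) ≤
      Ex (run (step ν) s n) (fun _ => 1) := Ex_mono _ fun a _ => ind_le_one _ a
    _ = 1 := Ex_const _ _

theorem law_eq_run (κ : St → PMF St) (T n : ℕ) : law κ T n = run κ ⟨{0}, [], T - 1⟩ n := by
  induction n with
  | zero => rfl
  | succ n ih => rw [law, run, ih]

theorem prob_eq_Phi (ν : PMF ℕ) (T : ℕ) (G : Finset V → Prop) :
    prob ν T G = Phi ν G ⟨{0}, [], T - 1⟩ := by
  unfold prob Phi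
  simp only [law_eq_run]

theorem mem_ballF (N : ℕ) (y : V) : y ∈ ballF N ↔ nsq y ≤ N ^ 2 := by
  unfold ballF
  rw [Finset.mem_filter, Fintype.mem_piFinset]
  constructor
  · exact fun h => h.2
  · intro h
    refine ⟨fun i => ?_, h⟩
    have h1 : (y i).natAbs ^ 2 ≤ nsq y := by
      unfold nsq
      exact Finset.single_le_sum (f := fun i => (y i).natAbs ^ 2) (fun _ _ => Nat.zero_le _)
        (Finset.mem_univ i)
    have h2 : (y i).natAbs ≤ N := (Nat.pow_le_pow_iff_left (by norm_num)).1 (h1.trans h)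
    rw [Finset.mem_Icc]
    omega

theorem sum_b_le (N : ℕ) (z : V) (b : V → ℝ) (hb0 : ∀ x, 0 ≤ b x)
    (hbout : ∀ x, N ^ 2 < nsq x → b x = 0) (A : Finset V) (hz : z ∉ A) :
    ∑ y ∈ A, b y ≤ ∑ y ∈ (ballF N).erase z, b y := by
  classical
  have h1 : ∑ y ∈ A, b y = ∑ y ∈ A with nsq y ≤ N ^ 2, b y := by
    rw [Finset.sum_filter]
    refine Finset.sum_congr rfl fun y _ => ?_
    split_ifs with h
    · rfl
    · exact hbout y (not_le.1 h)
  rw [h1]
  refine Finset.sum_le_sum_of_subset_of_nonneg ?_ fun y _ _ => hb0 y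
  intro y hy
  rw [Finset.mem_filter] at hy
  rw [Finset.mem_erase, mem_ballF]
  refine ⟨?_, hy.2⟩
  rintro rfl
  exact hz hy.1

theorem t_CRIT : S_CRIT := by
  intro hGF hSUP hOFF hABF hTERM hINV ν hν
  obtain ⟨C1, hC1, hgf⟩ := hGF ν hν
  refine ⟨C1, hC1, ?_⟩
  intro N T z b hT hz hb0 hbout hbsub
  obtain ⟨σ2, M, hoff⟩ := hOFF ν hν
  obtain ⟨inv1, inv2, inv3, inv4⟩ := hINV
  set s₀ : St := ⟨{0}, [], T - 1⟩ with hs₀
  set G : Finset V → Prop := fun A => z ∉ A with hG
  set Sg : ℝ := ∑ y ∈ (ballF N).erase z, b y with hSg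
  -- the supermartingale
  have hW : ∀ n, Ex (run (stepF ν N) s₀ n) (WW z b) ≤ WW z b s₀ := by
    intro n
    induction n with
    | zero => rw [run, Ex_pure]
    | succ n ih =>
      rw [run, Ex_bind]
      refine le_trans (Ex_mono _ fun s hs => ?_) ih
      exact hSUP ν C1 hgf N z b hb0 hbsub s
        (inv1 ν N n s₀ s rfl (Finset.mem_singleton_self _) hs).2
  have hW0 : WW z b s₀ = ENNReal.ofReal (Real.exp (-(T * b 0))) := by
    unfold WW
    have h1 : z ∉ s₀.A := by
      rw [hs₀]
      simpa using hz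
    rw [if_neg h1]
    congr 2
    rw [hs₀]
    simp only [Finset.sum_singleton, List.map_nil, List.sum_nil]
    rw [Nat.cast_sub hT]
    push_cast
    ring
  -- the pointwise bound
  have hpt : ∀ (s : St), Phi ν G s ≤
      ind (fun s => ¬ Froz N s) s + ENNReal.ofReal (Real.exp Sg) * WW z b s := by
    intro s
    by_cases hf : Froz N s
    · by_cases hzs : z ∈ s.A
      · have h1 : Phi ν (fun A => z ∈ A) s = Phi ν (fun _ => True) s :=
          inv2 ν (fun A => z ∈ A) s fun A hA => hA hzs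
        have h2 := inv4 ν (fun A => z ∈ A) s
        rw [h1] at h2
        have h3 : Phi ν (fun _ => True) s ≠ ⊤ :=
          ((Phi_le_one ν (fun _ => True) s).trans_lt ENNReal.one_lt_top).ne
        have h4 : Phi ν G s = 0 := by
          have h5 : Phi ν (fun _ => True) s + Phi ν G s = Phi ν (fun _ => True) s + 0 := by
            rw [add_zero]; exact h2
          exact (ENNReal.add_right_inj h3).1 h5
        rw [h4]
        exact zero_le
      · refine (Phi_le_one ν G s).trans ?_
        refine le_trans ?_ le_add_self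
        unfold WW
        rw [if_neg hzs, ← ENNReal.ofReal_mul (Real.exp_pos _).le, ← Real.exp_add,
          ← ENNReal.ofReal_one]
        refine ENNReal.ofReal_le_ofReal ?_
        rw [← Real.exp_zero]
        refine Real.exp_le_exp.2 ?_
        have h1 := sum_b_le N z b hb0 hbout s.A hzs
        have h2 : (s.L.map b).sum = 0 := by
          refine List.sum_eq_zero fun x hx => ?_
          obtain ⟨y, hy, rfl⟩ := List.mem_map.1 hx
          refine hbout y (not_le.1 fun h => hf.1 ⟨y, hy, h⟩)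
        rw [h2, hf.2]
        push_cast
        linarith
    · refine (Phi_le_one ν G s).trans ?_
      refine le_trans ?_ le_self_add
      unfold ind
      rw [if_pos hf]
  rw [prob_eq_Phi]
  refine ENNReal.le_of_forall_pos_le_add fun ε hε _ => ?_
  obtain ⟨n₀, hn₀⟩ := hTERM ν σ2 M N s₀ ε hoff rfl (by simp [yy, hs₀])
    (by exact_mod_cast hε)
  have h1 := hn₀ n₀ le_rfl
  rw [ENNReal.ofReal_coe_nnreal] at h1
  calc Phi ν G s₀ = Ex (run (stepF ν N) s₀ n₀) (Phi ν G) := hABF ν G N n₀ s₀
    _ ≤ Ex (run (stepF ν N) s₀ n₀)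
        (fun s => ind (fun s => ¬ Froz N s) s + ENNReal.ofReal (Real.exp Sg) * WW z b s) :=
        Ex_mono _ fun s _ => hpt s
    _ = Ex (run (stepF ν N) s₀ n₀) (ind fun s => ¬ Froz N s) +
        ENNReal.ofReal (Real.exp Sg) * Ex (run (stepF ν N) s₀ n₀) (WW z b) := by
        rw [Ex_add, Ex_const_mul]
    _ ≤ ε + ENNReal.ofReal (Real.exp Sg) * ENNReal.ofReal (Real.exp (-(T * b 0))) := by
        rw [← hW0]
        gcongr
        exact hW n₀
    _ = ENNReal.ofReal (Real.exp (-(T * b 0) + Sg)) + ε := by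
        rw [← ENNReal.ofReal_mul (Real.exp_pos _).le, ← Real.exp_add, add_comm Sg, add_comm]

end Pool.Agent.K1H68.UB

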